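import Pool.Agent.Helper47.RFn.GoalsE

/-!
# Packet RFn-EM: functions of the point and the time in the algebra
-/

namespace Pool.Agent.Helper47.RFn

open Finset

lemma EMaux.der_sum {B : Type} [CommRing B] [Algebra ℝ B] {ι : Type} (s : Finset ι)
    (D : ι → Derivation ℝ B B) (f : B) : (∑ j ∈ s, D j) f = ∑ j ∈ s, D j f := by
  classical
  induction s using Finset.induction_on with
  | empty => simp
  | insert a s ha ih => rw [Finset.sum_insert ha, Finset.sum_insert ha, Derivation.add_apply, ih]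

theorem goal_EM (hJSR : Pool.Agent.Helper73.RFn.JsrStmt) (hE0 : Goal_E0) (hC1 : Goal_C1)
    (hC3 : Goal_C3) : Goal_EM := by
  intro n T hT M hM
  obtain ⟨j1, j2, j3, j4, j5, j6, j7, j8, j9, -⟩ := hJSR n T
  obtain ⟨-, -, -, -, c5, -, -⟩ := hC3 n
  have to73 : ∀ {v : ℝ → EE n → ℝ}, JS T v → Pool.Agent.Helper73.RFn.JS T v :=
    fun h => ⟨h.cd, h.hom⟩
  have of73 : ∀ {v : ℝ → EE n → ℝ}, Pool.Agent.Helper73.RFn.JS T v → JS T v :=
    fun h => ⟨h.cd, h.hom⟩
  have hem : ∀ v : ℝ → EE n → ℝ, JS T v → M.XT (M.em v) ∧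
      ∀ z (t : TI T), M.ev z t (M.em v) = v t (M.pt z) := by
    intro v hv
    have h := hM.emb v hv
    have e : M.em v = Classical.choose h := by
      unfold Mod.em
      rw [dif_pos h]
    rw [e]
    exact Classical.choose_spec h
  have huq : ∀ (f : M.B) (v : ℝ → EE n → ℝ), JS T v →
      (∀ z (t : TI T), M.ev z t f = v t (M.pt z)) → f = M.em v := by
    intro f v hv h
    refine hM.ax.ext _ _ fun z t => ?_
    rw [h, (hem v hv).2]
  have hpt : ∀ z, M.pt z ≠ 0 := by
    intro z h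
    have := hM.ptn z
    rw [h, norm_zero] at this
    exact zero_ne_one this
  have hL : ∀ v : ℝ → EE n → ℝ, JS T v → ∀ i j, ∀ z (t : TI T),
      M.ev z t (M.L i j (M.em v)) = Lr i j (v t) (M.pt z) := by
    intro v hv i j z t
    exact hM.resL (M.fr z) (hM.frO z) (M.em v) v hv (fun z t _ => (hem v hv).2 z t) i j z t rfl
  refine ⟨hem, huq, ?_, ?_, ?_, ?_⟩
  · intro v hv i
    have h1 : JS T (fun t => ed i (v t)) := of73 (j7 v i (to73 hv))
    refine ⟨h1, ?_, fun j z t => hL v hv i j z t⟩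
    refine huq _ _ h1 fun z t => ?_
    have h2 : Sm (v t) := j9 v (to73 hv) t t.2.1 t.2.2
    rw [c5 i (v t) (M.pt z) h2 (hpt z)]
    have h3 : M.e i (M.em v) = ∑ j, M.n0 j * M.L j i (M.em v) := by
      unfold BA.e
      rw [EMaux.der_sum]
      exact Finset.sum_congr rfl fun j _ => by rw [Derivation.smul_apply, smul_eq_mul]
    rw [h3, map_sum]
    refine Finset.sum_congr rfl fun j _ => ?_
    rw [map_mul, hM.nev, hL v hv]
  · intro v v' hv hd z t
    exact hM.resD (M.fr z) (hM.frO z) (M.em v) v v' hv (fun z t _ => (hem v hv).2 z t) hd z t rfl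
  · intro v v' hv hv'
    obtain ⟨a1, a2, -, -⟩ := j1 v v' (to73 hv) (to73 hv')
    refine ⟨(huq _ _ (of73 a2) fun z t => ?_).symm, (huq _ _ (of73 a1) fun z t => ?_).symm⟩
    · rw [map_add, (hem v hv).2, (hem v' hv').2]
    · rw [map_mul, (hem v hv).2, (hem v' hv').2]
  · intro i
    exact (huq _ _ (of73 (j5 i)) fun z t => hM.nev z t i).symm

end Pool.Agent.Helper47.RFn
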