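import Pool.Agent.Helper47.RFn.GoalsC

/-!
# Packet RFn-PAIR: pair symmetry of the curvature, symmetry of the Ricci tensor
-/

namespace Pool.Agent.Helper47.RFn

open Finset

namespace PAIRaux

variable {n : ℕ} {𝒜 : Type} [CommRing 𝒜] [Algebra ℝ 𝒜] (e : Ix n → Derivation ℝ 𝒜 𝒜)
  (n0 : Ix n → 𝒜) (A θ : Ix n → Ix n → 𝒜)

lemma Fd_mul (a : Ix n) (f g : 𝒜) :
    FR.Fd e A a (f * g) = FR.Fd e A a f * g + f * FR.Fd e A a g := by
  unfold FR.Fd
  rw [Finset.sum_mul, Finset.mul_sum, ← Finset.sum_add_distrib]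
  refine Finset.sum_congr rfl fun i _ => ?_
  rw [Derivation.leibniz, smul_eq_mul, smul_eq_mul]
  ring

lemma Fd_sum (a : Ix n) {ι : Type} (s : Finset ι) (f : ι → 𝒜) :
    FR.Fd e A a (∑ i ∈ s, f i) = ∑ i ∈ s, FR.Fd e A a (f i) := by
  unfold FR.Fd
  rw [Finset.sum_comm]
  refine Finset.sum_congr rfl fun i _ => ?_
  rw [map_sum, Finset.mul_sum]

lemma nuk (h : FrameHyp e n0 A θ) (hFRA : Goal_FRA) (a b c : Ix n) :
    ∑ d, FR.R e n0 A θ a b c d * FR.nf n0 A d = 0 := by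
  obtain ⟨fa, -, -, -, -, -, -, fg, -, -⟩ := hFRA n 𝒜 e n0 A θ h
  have h1 := fa a b (FR.nf n0 A c)
  have h2 : ∀ a b, FR.Fd e A a (FR.Fd e A b (FR.nf n0 A c)) =
      ∑ d, (FR.Fd e A a (FR.Gam e n0 A θ b c d) * FR.nf n0 A d +
        ∑ f, FR.Gam e n0 A θ b c f * FR.Gam e n0 A θ a f d * FR.nf n0 A d) := by
    intro a b
    rw [fg b c, Fd_sum, Finset.sum_add_distrib]
    simp only [Fd_mul, Finset.sum_add_distrib, fg a]
    congr 1
    rw [Finset.sum_comm]
    refine Finset.sum_congr rfl fun f _ => ?_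
    rw [Finset.mul_sum]
    exact Finset.sum_congr rfl fun d _ => by ring
  have h3 : ∑ f, FR.C e n0 A θ a b f * FR.Fd e A f (FR.nf n0 A c) =
      ∑ d, ∑ f, FR.C e n0 A θ a b f * FR.Gam e n0 A θ f c d * FR.nf n0 A d := by
    rw [Finset.sum_comm]
    refine Finset.sum_congr rfl fun f _ => ?_
    rw [fg f c, Finset.mul_sum]
    exact Finset.sum_congr rfl fun d _ => by ring
  rw [h2, h2, h3, ← sub_eq_zero, ← Finset.sum_sub_distrib, ← Finset.sum_sub_distrib] at h1
  rw [← neg_eq_zero, ← Finset.sum_neg_distrib]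
  refine Eq.trans (Finset.sum_congr rfl fun d _ => ?_) h1
  unfold FR.R FR.K
  simp only [← Finset.sum_mul, Finset.sum_sub_distrib]
  ring

end PAIRaux

open PAIRaux in
theorem goal_PAIR (hFRA : Goal_FRA) (hGEO : Goal_GEO) : Goal_PAIR := by
  intro n 𝒜 _ _ e n0 A θ h
  obtain ⟨-, -, -, -, -, -, -, -, r12, r34⟩ := hFRA n 𝒜 e n0 A θ h
  obtain ⟨-, -, bi⟩ := hGEO n 𝒜 e n0 A θ h
  have pair : ∀ a b c d, FR.R e n0 A θ a b c d = FR.R e n0 A θ c d a b := by
    intro a b c d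
    have h2 : 2 * (FR.R e n0 A θ a b c d - FR.R e n0 A θ c d a b) = 0 := by
      have b1 := bi a b c d
      have b2 := bi b c d a
      have b3 := bi c d a b
      have b4 := bi d a b c
      have e1 := r34 a b d c
      have e2 := r34 c d b a
      have e3 := r34 b c d a
      have e4 := r12 a c d b
      have e5 := r34 c a d b
      have e6 := r12 b d a c
      have e7 := r34 d b a c
      have e8 := r34 d a b c
      linear_combination b1 + b2 - b3 - b4 + e1 - e2 - e3 + e4 - e5 + e6 - e7 + e8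
    have h3 : (1 / 2 : ℝ) • (2 * (FR.R e n0 A θ a b c d - FR.R e n0 A θ c d a b)) = 0 := by
      rw [h2, smul_zero]
    have h4 : (2 : 𝒜) = algebraMap ℝ 𝒜 2 := (map_ofNat (algebraMap ℝ 𝒜) 2).symm
    rw [h4, ← Algebra.smul_def, smul_smul] at h3
    norm_num at h3
    exact sub_eq_zero.1 h3
  refine ⟨pair, fun a b => ?_, fun a => ?_⟩
  · unfold FR.Rc
    exact Finset.sum_congr rfl fun c _ => pair a c b c
  · unfold FR.Rc
    simp only [Finset.sum_mul]
    rw [Finset.sum_comm]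
    refine Finset.sum_eq_zero fun c _ => ?_
    have h1 := nuk e n0 A θ h hFRA a c c
    have h2 : ∀ b, FR.R e n0 A θ a c b c * FR.nf n0 A b =
        - (FR.R e n0 A θ a c c b * FR.nf n0 A b) := by
      intro b
      rw [r34 a c b c]
      ring
    simp only [h2, Finset.sum_neg_distrib, h1, neg_zero]

end Pool.Agent.Helper47.RFn
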