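import Pool.Agent.Helper47.RFn.GoalsB

/-!
# Packet RFn-CBB: bounded curvature implies bounded derivatives
-/

namespace Pool.Agent.Helper47.RFn

open Finset

namespace CBBaux

variable {n : ℕ} {T : ℝ} {F : FB n T}

/-- index set of the derivatives of order `m` -/
abbrev J (n m : ℕ) : Type := (Fin m → Ix n) × (Ix n × Ix n × Ix n × Ix n)

/-- the derivatives of order `m` -/
def xx (F : FB n T) (m : ℕ) (j : J n m) : F.B :=
  F.Hw (List.ofFn j.1) (F.R j.2.1 j.2.2.1 j.2.2.2.1 j.2.2.2.2)

lemma xx_mem (m : ℕ) (j : J n m) : xx F m j ∈ F.Gset m :=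
  ⟨List.ofFn j.1, _, _, _, _, List.length_ofFn, rfl⟩

lemma exists_xx (m : ℕ) (x : F.B) (hx : x ∈ F.Gset m) : ∃ j, x = xx F m j := by
  obtain ⟨w, a, b, c, d, hw, rfl⟩ := hx
  subst hw
  refine ⟨(fun i => w.get i, (a, b, c, d)), ?_⟩
  unfold xx
  simp only [List.ofFn_get]

/-- sum of the squares of the derivatives of order `m` -/
def UU (F : FB n T) (m : ℕ) : F.B := ∑ j : J n m, xx F m j ^ 2

lemma ev_UU (m : ℕ) (z : F.Z) (t : TI T) :
    F.ev z t (UU F m) = ∑ j : J n m, F.ev z t (xx F m j) ^ 2 := by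
  unfold UU
  simp [map_sum, map_pow]

lemma UU_nonneg (m : ℕ) (z : F.Z) (t : TI T) : 0 ≤ F.ev z t (UU F m) := by
  rw [ev_UU]
  exact Finset.sum_nonneg fun j _ => sq_nonneg _

lemma sq_le_UU (m : ℕ) (x : F.B) (hx : x ∈ F.Gset m) (z : F.Z) (t : TI T) :
    F.ev z t x ^ 2 ≤ F.ev z t (UU F m) := by
  obtain ⟨j, rfl⟩ := exists_xx m x hx
  rw [ev_UU]
  exact Finset.single_le_sum (f := fun j => F.ev z t (xx F m j) ^ 2) (fun i _ => sq_nonneg _)
    (Finset.mem_univ j)

lemma abs_le_sqrtU (m : ℕ) (x : F.B) (hx : x ∈ F.Gset m) (z : F.Z) (t : TI T) :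
    |F.ev z t x| ≤ Real.sqrt (F.ev z t (UU F m)) :=
  Real.abs_le_sqrt (sq_le_UU m x hx z t)

lemma span_bd (m : ℕ) (hm : 1 ≤ m) (K : ℝ) (hK : ∀ z t a b c d, |F.ev z t (F.R a b c d)| ≤ K)
    (ih : ∀ k < m, ∀ x ∈ F.Gset k, ∃ C, ∀ z t, |F.ev z t x| ≤ C) (y : F.B)
    (hy : y ∈ Submodule.span ℝ {y | ∃ k l : ℕ, k + l = m ∧ ∃ a ∈ F.Gset k, ∃ b ∈ F.Gset l,
      y = a * b}) :
    ∃ C : ℝ, 0 ≤ C ∧ ∀ z t, |F.ev z t y| ≤ C * (1 + Real.sqrt (F.ev z t (UU F m))) := by
  have hb : ∀ k ≤ m, ∀ x ∈ F.Gset k, k = 0 → ∀ z t, |F.ev z t x| ≤ |K| := by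
    intro k _ x hx hk z t
    subst hk
    obtain ⟨w, a, b, c, d, hw, rfl⟩ := hx
    have hw0 : w = [] := List.eq_nil_of_length_eq_zero hw
    subst hw0
    exact (hK z t a b c d).trans (le_abs_self K)
  refine Submodule.span_induction (p := fun y _ => ∃ C : ℝ, 0 ≤ C ∧
    ∀ z t, |F.ev z t y| ≤ C * (1 + Real.sqrt (F.ev z t (UU F m)))) ?_ ?_ ?_ ?_ hy
  · rintro y ⟨k, l, hkl, a, ha, b, hb', rfl⟩
    rcases Nat.eq_zero_or_pos k with hk | hk
    · have hl : l = m := by omega
      subst hl
      refine ⟨|K|, abs_nonneg K, fun z t => ?_⟩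
      rw [map_mul, abs_mul]
      have h1 := hb k (by omega) a ha hk z t
      have h2 := abs_le_sqrtU l b hb' z t
      have h3 := Real.sqrt_nonneg (F.ev z t (UU F l))
      have h4 := abs_nonneg K
      calc |F.ev z t a| * |F.ev z t b| ≤ |K| * Real.sqrt (F.ev z t (UU F l)) :=
            mul_le_mul h1 h2 (abs_nonneg _) h4
        _ ≤ |K| * (1 + Real.sqrt (F.ev z t (UU F l))) := by nlinarith
    · rcases Nat.eq_zero_or_pos l with hl | hl
      · have hk' : k = m := by omega
        subst hk'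
        refine ⟨|K|, abs_nonneg K, fun z t => ?_⟩
        rw [map_mul, abs_mul]
        have h1 := hb l (by omega) b hb' hl z t
        have h2 := abs_le_sqrtU k a ha z t
        have h3 := Real.sqrt_nonneg (F.ev z t (UU F k))
        have h4 := abs_nonneg K
        calc |F.ev z t a| * |F.ev z t b| ≤ Real.sqrt (F.ev z t (UU F k)) * |K| :=
              mul_le_mul h2 h1 (abs_nonneg _) h3
          _ ≤ |K| * (1 + Real.sqrt (F.ev z t (UU F k))) := by nlinarith
      · obtain ⟨Ca, hCa⟩ := ih k (by omega) a ha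
        obtain ⟨Cb, hCb⟩ := ih l (by omega) b hb'
        refine ⟨|Ca| * |Cb|, by positivity, fun z t => ?_⟩
        rw [map_mul, abs_mul]
        have h1 : |F.ev z t a| ≤ |Ca| := (hCa z t).trans (le_abs_self _)
        have h2 : |F.ev z t b| ≤ |Cb| := (hCb z t).trans (le_abs_self _)
        have h3 := Real.sqrt_nonneg (F.ev z t (UU F m))
        have h4 : 0 ≤ |Ca| * |Cb| := by positivity
        calc |F.ev z t a| * |F.ev z t b| ≤ |Ca| * |Cb| :=
              mul_le_mul h1 h2 (abs_nonneg _) (abs_nonneg _)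
          _ ≤ |Ca| * |Cb| * (1 + Real.sqrt (F.ev z t (UU F m))) := by nlinarith
  · exact ⟨0, le_rfl, fun z t => by simp⟩
  · rintro x y - - ⟨C1, h1, H1⟩ ⟨C2, h2, H2⟩
    refine ⟨C1 + C2, by positivity, fun z t => ?_⟩
    rw [map_add, add_mul]
    exact (abs_add_le _ _).trans (add_le_add (H1 z t) (H2 z t))
  · rintro c x - ⟨C1, h1, H1⟩
    refine ⟨|c| * C1, by positivity, fun z t => ?_⟩
    rw [map_smul, smul_eq_mul, abs_mul, mul_assoc]
    exact mul_le_mul_of_nonneg_left (H1 z t) (abs_nonneg c)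

end CBBaux

open CBBaux in
theorem goal_CBB (hCA : Goal_CA) (hMP1 : Goal_MP1) (hBDD : Goal_BDD) (hPRD : Goal_PRD) :
    Goal_CBB := by
  intro n T F hF hRF K hK hBd
  have hB : F.Base := hF.toBase
  obtain ⟨hprd, -⟩ := hPRD n T F
  obtain ⟨-, -, hcl, -⟩ := hBDD n T F hB
  -- `T > 0`
  obtain ⟨-, t0', ht0', ht0T', -⟩ := hBd [] 0 0 0 0
  have hT : 0 < T := ht0'.trans ht0T'
  have hBd0 : F.Bd0 0 := ⟨0, t0', ht0', ht0T', fun z t _ => by simp⟩
  have key : ∀ m : ℕ, ∀ x ∈ F.Gset m, ∃ C, ∀ z t, |F.ev z t x| ≤ C := by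
    intro m
    induction m using Nat.strong_induction_on with
    | _ m ih =>
      rcases Nat.eq_zero_or_pos m with hm | hm
      · subst hm
        rintro x ⟨w, a, b, c, d, hw, rfl⟩
        have hw0 : w = [] := List.eq_nil_of_length_eq_zero hw
        subst hw0
        exact ⟨K, fun z t => hK z t a b c d⟩
      -- bounds for `Hop x`
      have hhop : ∀ j : J n m, ∃ C : ℝ, 0 ≤ C ∧
          ∀ z t, |F.ev z t (F.Hop (xx F m j))| ≤ C * (1 + Real.sqrt (F.ev z t (UU F m))) :=
        fun j => span_bd m hm K hK ih _ (hCA n T F hF hRF m _ (xx_mem m j))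
      choose Cj hCj0 hCj using hhop
      set C : ℝ := ∑ j : J n m, 4 * Cj j with hCdef
      have hC0 : 0 ≤ C := Finset.sum_nonneg fun j _ => by have := hCj0 j; positivity
      have hHopU : F.Hop (UU F m) = ∑ j : J n m, F.Hop (xx F m j ^ 2) := by
        have hadd : ∀ f g : F.B, F.Hop (f + g) = F.Hop f + F.Hop g := fun f g => (hprd f g).2.1
        have hzero : F.Hop 0 = 0 := by
          have := hadd 0 0
          simpa using this
        unfold UU
        exact map_sum (AddMonoidHom.mk' F.Hop hadd) _ _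
      have hUle : ∀ z t, F.ev z t (F.Hop (UU F m)) ≤ C * (1 + F.ev z t (UU F m)) := by
        intro z t
        rw [hHopU, map_sum, hCdef, Finset.sum_mul]
        refine Finset.sum_le_sum fun j _ => ?_
        have h1 := (hprd (xx F m j) (xx F m j)).2.2.2.2
        rw [h1]
        simp only [map_sub, map_smul, map_mul, smul_eq_mul]
        have hg : 0 ≤ F.ev z t (F.gg (xx F m j) (xx F m j)) := by
          unfold FB.gg
          simp only [map_sum, map_mul]
          exact Finset.sum_nonneg fun a _ => mul_self_nonneg _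
        have h2 := hCj j z t
        have h3 := abs_le_sqrtU m _ (xx_mem (F := F) m j) z t
        have h4 := Real.sqrt_nonneg (F.ev z t (UU F m))
        have h5 := Real.sq_sqrt (UU_nonneg (F := F) m z t)
        have h6 := hCj0 j
        set s := Real.sqrt (F.ev z t (UU F m)) with hs
        have h7 : F.ev z t (xx F m j) * F.ev z t (F.Hop (xx F m j)) ≤ s * (Cj j * (1 + s)) := by
          calc F.ev z t (xx F m j) * F.ev z t (F.Hop (xx F m j))
              ≤ |F.ev z t (xx F m j) * F.ev z t (F.Hop (xx F m j))| := le_abs_self _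
            _ = |F.ev z t (xx F m j)| * |F.ev z t (F.Hop (xx F m j))| := abs_mul _ _
            _ ≤ s * (Cj j * (1 + s)) := mul_le_mul h3 h2 (abs_nonneg _) h4
        have h8 : s * (1 + s) ≤ 2 * (1 + s ^ 2) := by nlinarith [sq_nonneg (s - 1)]
        rw [← h5]
        nlinarith [mul_le_mul_of_nonneg_left h8 h6]
      -- bounded near `0`
      have hUBd : F.Bd0 (UU F m) := by
        unfold UU
        refine Finset.sum_induction _ (fun x => F.Bd0 x) (fun a b ha hb => (hcl a b ha hb).1)
          hBd0 ?_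
        intro j _
        rw [pow_two]
        have : F.Bd0 (xx F m j) := hBd _ _ _ _ _
        exact (hcl _ _ this this).2.2.1
      obtain ⟨U0, t0, ht0, ht0T, hU0⟩ := hUBd
      have hU0n : 0 ≤ U0 := by
        obtain ⟨z⟩ := F.neZ
        exact (abs_nonneg _).trans (hU0 z ⟨t0 / 2, by constructor <;> linarith⟩
          (by show t0 / 2 < t0; linarith))
      -- the exponential
      obtain ⟨g, hg⟩ := hB.comp (fun r => Real.exp (C * r)) Set.univ isOpen_univ
        (by fun_prop) F.tt (fun _ _ => Set.mem_univ _)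
      have hchain := hB.chain (fun r => Real.exp (C * r)) Set.univ isOpen_univ
        (by fun_prop) F.tt g (fun _ _ => Set.mem_univ _) hg
      have hder : ∀ r : ℝ, deriv (fun r => Real.exp (C * r)) r = C * Real.exp (C * r) := by
        intro r
        have : HasDerivAt (fun r => Real.exp (C * r)) (Real.exp (C * r) * (C * 1)) r :=
          ((hasDerivAt_id r).const_mul C).exp
        rw [this.deriv]; ring
      have hHg : ∀ a, F.H a g = 0 := by
        intro a
        refine hB.ext _ _ fun z t => ?_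
        rw [(hchain z t).1 a, hB.tt_H a]
        simp
      have hDg : F.D g = C • g := by
        refine hB.ext _ _ fun z t => ?_
        rw [(hchain z t).2.2, hB.tt_D, hder, map_smul, hg z t]
        simp
      have hHopg : F.Hop g = C • g := by
        unfold FB.Hop FB.Lap
        simp [hHg, hDg]
      set f : F.B := (1 + U0) • g - (algebraMap ℝ F.B 1 + UU F m) with hf
      have hevf : ∀ z t, F.ev z t f = (1 + U0) * Real.exp (C * t) - (1 + F.ev z t (UU F m)) := by
        intro z t
        rw [hf, map_sub, map_smul, hg z t, hB.tt_ev, map_add]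
        simp
      have hHopf : F.Hop f = (1 + U0) • (C • g) - F.Hop (UU F m) := by
        have e1 := (hprd ((1 + U0) • g) (algebraMap ℝ F.B 1 + UU F m)).2.2.1
        have e2 := (hprd (algebraMap ℝ F.B 1) (UU F m)).2.1
        have e3 := ((hprd (algebraMap ℝ F.B 1) (UU F m)).2.2.2.1 1).2
        have e4 := ((hprd g g).2.2.2.1 (1 + U0)).1
        rw [hf, e1, e2, e3, e4, hHopg, zero_add]
      have hfin : ∀ z t, 0 ≤ F.ev z t f := by
        intro z t
        refine hMP1 n T F hB f 0 t C 1 le_rfl t.2.2 hC0 one_pos ?_ ?_ z t t.2.1 le_rfl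
        · intro ε hε
          refine ⟨t0, ht0, fun z t _ ht => ?_⟩
          have h1 := hU0 z t (by simpa using ht)
          have h2 := le_abs_self (F.ev z t (UU F m))
          rw [hevf]
          have h3 : 1 ≤ Real.exp (C * t) := by
            apply Real.one_le_exp
            have := t.2.1.le
            positivity
          nlinarith
        · intro z t _ _ _ _ _
          rw [hHopf, hevf, map_sub, map_smul, map_smul, hg z t, hB.tt_ev]
          have := hUle z t
          simp only [smul_eq_mul]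
          nlinarith
      intro x hx
      refine ⟨Real.sqrt ((1 + U0) * Real.exp (C * T)), fun z t => ?_⟩
      refine Real.abs_le_sqrt ((sq_le_UU m x hx z t).trans ?_)
      have h1 := hfin z t
      rw [hevf] at h1
      have h2 : Real.exp (C * t) ≤ Real.exp (C * T) := by
        apply Real.exp_le_exp.mpr
        have := t.2.2.le
        exact mul_le_mul_of_nonneg_left this hC0
      nlinarith
  intro w a b c d
  exact key w.length _ ⟨w, a, b, c, d, rfl, rfl⟩

end Pool.Agent.Helper47.RFn
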