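import Pool.Agent.Helper47.RFn.Alg

/-!
# Packet RFn-SV: second variation
-/

set_option autoImplicit false

namespace Pool.Agent.Helper47.RFn

open Finset

namespace SVh59

variable {n : ℕ}

/-- the four-linear form -/
noncomputable def N (R : T4 n) (z w x y : Fin n → ℂ) : ℂ :=
  ∑ a, ∑ b, ∑ c, ∑ d, (R a b c d : ℂ) * z a * w b * star (x c) * star (y d)

lemma qf_eq (R : T4 n) (z w : Fin n → ℂ) : qf R z w = (N R z w z w).re := rfl

lemma pairN (R : T4 n) (hp : ∀ a b c d, R a b c d = R c d a b) (z w x y : Fin n → ℂ) :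
    N R z w x y = star (N R x y z w) := by
  unfold N
  simp only [star_sum, star_mul', star_star]
  have h1 : ∀ a b c d, (R a b c d : ℂ) * z a * w b * star (x c) * star (y d)
      = (fun c d a b => (R c d a b : ℂ) * z a * w b * star (x c) * star (y d)) c d a b := by
    intro a b c d
    simp only
    rw [hp a b c d]
  calc (∑ a, ∑ b, ∑ c, ∑ d, (R a b c d : ℂ) * z a * w b * star (x c) * star (y d))
      = ∑ a, ∑ b, ∑ c, ∑ d, (R c d a b : ℂ) * z a * w b * star (x c) * star (y d) := by
        refine sum_congr rfl fun a _ => sum_congr rfl fun b _ => sum_congr rfl fun c _ =>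
          sum_congr rfl fun d _ => h1 a b c d
    _ = ∑ a, ∑ c, ∑ b, ∑ d, (R c d a b : ℂ) * z a * w b * star (x c) * star (y d) :=
        sum_congr rfl fun a _ => sum_comm
    _ = ∑ c, ∑ a, ∑ b, ∑ d, (R c d a b : ℂ) * z a * w b * star (x c) * star (y d) := sum_comm
    _ = ∑ c, ∑ a, ∑ d, ∑ b, (R c d a b : ℂ) * z a * w b * star (x c) * star (y d) :=
        sum_congr rfl fun c _ => sum_congr rfl fun a _ => sum_comm
    _ = ∑ c, ∑ d, ∑ a, ∑ b, (R c d a b : ℂ) * z a * w b * star (x c) * star (y d) :=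
        sum_congr rfl fun c _ => sum_comm
    _ = _ := by
        refine sum_congr rfl fun c _ => sum_congr rfl fun d _ => sum_congr rfl fun a _ =>
          sum_congr rfl fun b _ => ?_
        have : star ((R c d a b : ℝ) : ℂ) = ((R c d a b : ℝ) : ℂ) := Complex.conj_ofReal _
        rw [this]
        ring

lemma key (R : T4 n) (z w ξ η : Fin n → ℂ) (r : ℝ) :
    N R (fun a => z a + r * ξ a) (fun a => w a + r * η a)
        (fun a => z a + r * ξ a) (fun a => w a + r * η a)
      + N R (fun a => z a + (r * Complex.I) * ξ a) (fun a => w a + (r * Complex.I) * η a)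
        (fun a => z a + (r * Complex.I) * ξ a) (fun a => w a + (r * Complex.I) * η a)
      + N R (fun a => z a + (-r) * ξ a) (fun a => w a + (-r) * η a)
        (fun a => z a + (-r) * ξ a) (fun a => w a + (-r) * η a)
      + N R (fun a => z a + (-(r * Complex.I)) * ξ a) (fun a => w a + (-(r * Complex.I)) * η a)
        (fun a => z a + (-(r * Complex.I)) * ξ a) (fun a => w a + (-(r * Complex.I)) * η a)
    = 4 * N R z w z w + 4 * (r : ℂ) ^ 2 * (N R ξ w ξ w + N R ξ w z η + N R z η ξ w + N R z η z η)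
      + 4 * (r : ℂ) ^ 4 * N R ξ η ξ η := by
  unfold N
  simp only [← Finset.sum_add_distrib, Finset.mul_sum]
  refine sum_congr rfl fun a _ => sum_congr rfl fun b _ => sum_congr rfl fun c _ =>
    sum_congr rfl fun d _ => ?_
  have hI : Complex.I * Complex.I = -1 := Complex.I_mul_I
  have s1 : star (r : ℂ) = (r : ℂ) := Complex.conj_ofReal r
  have s2 : star Complex.I = -Complex.I := Complex.conj_I
  simp only [star_add, star_mul', star_neg, s1, s2]
  have h2 : Complex.I ^ 2 = -1 := Complex.I_sq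
  have h4 : Complex.I ^ 4 = 1 := Complex.I_pow_four
  ring_nf
  simp only [h2, h4]
  ring

end SVh59

open SVh59 in
theorem goal_SV : Goal_SV := by
  intro n R hR z w hzw ξ η
  obtain ⟨hc, hq⟩ := hR
  set A := N R ξ w ξ w + N R ξ w z η + N R z η ξ w + N R z η z η with hA
  have hgoal : (∑ a, ∑ b, ∑ c, ∑ d, (R a b c d : ℂ) * (ξ a * w b * star (ξ c) * star (w d)
      + z a * η b * star (z c) * star (η d) + 2 * (ξ a * w b * star (z c) * star (η d)))).re
      = A.re := by
    have e1 : (∑ a, ∑ b, ∑ c, ∑ d, (R a b c d : ℂ) * (ξ a * w b * star (ξ c) * star (w d)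
      + z a * η b * star (z c) * star (η d) + 2 * (ξ a * w b * star (z c) * star (η d))))
      = N R ξ w ξ w + N R z η z η + 2 * N R ξ w z η := by
      unfold N
      simp only [← Finset.sum_add_distrib, Finset.mul_sum]
      refine sum_congr rfl fun a _ => sum_congr rfl fun b _ => sum_congr rfl fun c _ =>
        sum_congr rfl fun d _ => ?_
      ring
    have e2 : (N R z η ξ w).re = (N R ξ w z η).re := by
      rw [pairN R hc.pair z η ξ w]
      exact Complex.conj_re _
    rw [e1, hA]
    simp only [Complex.add_re, Complex.mul_re, Complex.re_ofNat, Complex.im_ofNat, zero_mul,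
      sub_zero]
    rw [e2]
    ring
  rw [hgoal]
  have hineq : ∀ r : ℝ, 0 < r → 0 ≤ A.re + r ^ 2 * (N R ξ η ξ η).re := by
    intro r hr
    have k := congrArg Complex.re (key R z w ξ η r)
    have p1 := hq (fun a => z a + r * ξ a) (fun a => w a + r * η a)
    have p2 := hq (fun a => z a + (r * Complex.I) * ξ a) (fun a => w a + (r * Complex.I) * η a)
    have p3 := hq (fun a => z a + (-r) * ξ a) (fun a => w a + (-r) * η a)
    have p4 := hq (fun a => z a + (-(r * Complex.I)) * ξ a)
      (fun a => w a + (-(r * Complex.I)) * η a)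
    rw [qf_eq] at p1 p2 p3 p4 hzw
    rw [← hA] at k
    have c1 : (4 * N R z w z w + 4 * (r : ℂ) ^ 2 * A + 4 * (r : ℂ) ^ 4 * N R ξ η ξ η).re
        = 4 * (N R z w z w).re + 4 * r ^ 2 * A.re + 4 * r ^ 4 * (N R ξ η ξ η).re := by
      have d1 : (4 * (r : ℂ) ^ 2) = ((4 * r ^ 2 : ℝ) : ℂ) := by push_cast; ring
      have d2 : (4 * (r : ℂ) ^ 4) = ((4 * r ^ 4 : ℝ) : ℂ) := by push_cast; ring
      have d3 : (4 : ℂ) = ((4 : ℝ) : ℂ) := by push_cast; ring
      rw [d1, d2, d3]
      simp only [Complex.add_re, Complex.re_ofReal_mul]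
    rw [c1, hzw] at k
    simp only [Complex.add_re] at k
    have h5 : 0 ≤ 4 * r ^ 2 * A.re + 4 * r ^ 4 * (N R ξ η ξ η).re := by
      linarith
    have h6 : 4 * r ^ 2 * A.re + 4 * r ^ 4 * (N R ξ η ξ η).re
        = (4 * r ^ 2) * (A.re + r ^ 2 * (N R ξ η ξ η).re) := by ring
    rw [h6] at h5
    exact nonneg_of_mul_nonneg_right h5 (by positivity)
  by_contra hneg
  push Not at hneg
  set K := (N R ξ η ξ η).re with hK
  have hpos : 0 < -A.re / (2 * (|K| + 1)) := by
    apply div_pos (by linarith) (by positivity)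
  have h7 := hineq (Real.sqrt (-A.re / (2 * (|K| + 1)))) (Real.sqrt_pos.2 hpos)
  rw [Real.sq_sqrt hpos.le] at h7
  have h8 : -A.re / (2 * (|K| + 1)) * K ≤ -A.re / 2 := by
    calc -A.re / (2 * (|K| + 1)) * K ≤ -A.re / (2 * (|K| + 1)) * (|K| + 1) := by
          apply mul_le_mul_of_nonneg_left _ hpos.le
          linarith [le_abs_self K]
      _ = -A.re / 2 := by
          have : |K| + 1 ≠ 0 := by positivity
          field_simp
  linarith

end Pool.Agent.Helper47.RFn
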