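import Pool.Agent.Helper47.RFn.GoalsA

/-!
# Packet RFn-BOC: Bochner formulas on the frame bundle
-/

namespace Pool.Agent.Helper47.RFn

open Finset

namespace BOCaux

variable {n : ℕ} {T : ℝ} {F : FB n T}

/-- contraction with a Kronecker symbol -/
lemma sum_dl (a : Ix n) (u : Ix n → F.B) : ∑ l, F.dl l a * u l = u a := by
  unfold FB.dl
  simp [Finset.sum_ite_eq', ite_mul]

/-- double contraction of an antisymmetric array with the derivative of a covector -/
lemma contr (X : Ix n → Ix n → Ix n → F.B) (u : Ix n → F.B)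
    (hX : ∀ a c d, X a c d = - X a d c) :
    ∑ a, ∑ c, ∑ d, X a c d * (F.dl d a * u c - F.dl c a * u d)
      = (2 : ℝ) • ∑ c, (∑ a, X a c a) * u c := by
  have h1 : ∑ a, ∑ c, ∑ d, X a c d * (F.dl d a * u c - F.dl c a * u d)
      = ∑ a, ∑ c, ∑ d, F.dl d a * (X a c d * u c) - ∑ a, ∑ c, ∑ d, F.dl c a * (X a c d * u d) := by
    simp only [← Finset.sum_sub_distrib]
    refine Finset.sum_congr rfl fun a _ => Finset.sum_congr rfl fun c _ =>
      Finset.sum_congr rfl fun d _ => ?_
    ring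
  have h2 : ∑ a, ∑ c, ∑ d, F.dl d a * (X a c d * u c) = ∑ a, ∑ c, X a c a * u c := by
    refine Finset.sum_congr rfl fun a _ => Finset.sum_congr rfl fun c _ => ?_
    exact sum_dl a (fun d => X a c d * u c)
  have h3 : ∑ a, ∑ c, ∑ d, F.dl c a * (X a c d * u d) = ∑ a, ∑ d, X a a d * u d := by
    refine Finset.sum_congr rfl fun a _ => ?_
    rw [Finset.sum_comm]
    refine Finset.sum_congr rfl fun d _ => ?_
    exact sum_dl a (fun c => X a c d * u d)
  have h4 : ∑ a, ∑ d, X a a d * u d = - ∑ a, ∑ c, X a c a * u c := by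
    rw [← Finset.sum_neg_distrib]
    refine Finset.sum_congr rfl fun a _ => ?_
    rw [← Finset.sum_neg_distrib]
    refine Finset.sum_congr rfl fun d _ => ?_
    rw [hX a a d]; ring
  have h5 : ∑ a, ∑ c, X a c a * u c = ∑ c, (∑ a, X a c a) * u c := by
    rw [Finset.sum_comm]
    refine Finset.sum_congr rfl fun c _ => ?_
    rw [Finset.sum_mul]
  rw [h1, h2, h3, h4, h5, two_smul]
  ring

end BOCaux

open BOCaux in
theorem goal_BOC (hVIN : Goal_VIN) (hRIC : Goal_RIC) : Goal_BOC := by
  intro n T F hF f hf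
  obtain ⟨-, -, -, -, -, -, -, hD, hsym, hV⟩ := hVIN n T F hF
  obtain ⟨rsym, -, -, rdiv, -, -, -⟩ := hRIC n T F hF
  have hs := hsym f hf
  have hv := hV f hf
  have hVf : ∀ k l, F.V k l f = 0 := hf
  -- (1)
  have h1 : ∀ a, F.Lap (F.H a f) = F.H a (F.Lap f) + ∑ b, F.Ric a b * F.H b f := by
    intro a
    have e1 : F.Lap (F.H a f) = ∑ c, F.H c (F.H a (F.H c f)) := by
      unfold FB.Lap
      refine Finset.sum_congr rfl fun c _ => ?_
      rw [hs c a]
    have e2 : ∀ c, F.H c (F.H a (F.H c f)) = F.H a (F.H c (F.H c f))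
        + (-(1 / 2) : ℝ) • ∑ k, ∑ l, F.R c a k l * (F.dl l c * F.H k f - F.dl k c * F.H l f) := by
      intro c
      have := hF.HH c a (F.H c f)
      simp only [hv] at this
      rw [← this]; ring
    have e3 : F.H a (F.Lap f) = ∑ c, F.H a (F.H c (F.H c f)) := by
      unfold FB.Lap
      rw [map_sum]
    have e4 := contr (F := F) (fun c k l => F.R c a k l) (fun k => F.H k f)
      (fun c k l => hF.R34 c a k l)
    rw [e1, e3]
    simp only [e2]
    rw [Finset.sum_add_distrib, ← Finset.smul_sum, e4, smul_smul]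
    congr 1
    have e5 : ∀ k, ∑ c, F.R c a k c = - F.Ric a k := by
      intro k
      unfold FB.Ric
      rw [← Finset.sum_neg_distrib]
      exact Finset.sum_congr rfl fun c _ => hF.R12 c a k c
    simp only [e5]
    norm_num
  have hY0 : ∀ a c d, F.Y a c d = - F.Y a d c := by
    intro a c d
    unfold FB.Y
    ring
  have hDH : ∀ a, F.D (F.H a f) = F.H a (F.D f) + ∑ b, F.S a b * F.H b f := by
    intro a
    rw [hF.DHY a f]
    simp [hVf]
  have hDL : F.D (F.Lap f) = F.Lap (F.D f)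
      + (∑ a, ∑ b, F.H a (F.S a b) * F.H b f) + (2 : ℝ) • (∑ a, ∑ b, F.S a b * F.H a (F.H b f))
      + ∑ c, (∑ a, F.Y a c a) * F.H c f := by
    have e4 := contr (F := F) (fun a c d => F.Y a c d) (fun k => F.H k f) hY0
    have e6 : ∀ a, F.D (F.H a (F.H a f)) = F.H a (F.H a (F.D f))
        + (∑ b, F.H a (F.S a b) * F.H b f) + (2 : ℝ) • (∑ b, F.S a b * F.H a (F.H b f))
        + (1 / 2 : ℝ) • ∑ c, ∑ d, F.Y a c d * (F.dl d a * F.H c f - F.dl c a * F.H d f) := by
      intro a
      rw [hF.DHY a (F.H a f), hDH a]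
      simp only [hv, map_add, map_sum, Derivation.leibniz, smul_eq_mul]
      have e7 : ∀ b, F.H b (F.H a f) = F.H a (F.H b f) := fun b => hs b a
      simp only [e7, Finset.sum_add_distrib]
      have e8 : ∑ b, F.H b f * F.H a (F.S a b) = ∑ b, F.H a (F.S a b) * F.H b f :=
        Finset.sum_congr rfl fun b _ => mul_comm _ _
      rw [e8, two_smul]
      ring
    have e9 : F.D (F.Lap f) = ∑ a, F.D (F.H a (F.H a f)) := by
      unfold FB.Lap
      rw [map_sum]
    rw [e9]
    simp only [e6, Finset.sum_add_distrib, ← Finset.smul_sum]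
    rw [e4, smul_smul]
    norm_num
    rfl
  refine ⟨h1, ?_, ?_, ?_⟩
  · intro hRF a
    unfold FB.Hop
    rw [h1 a, hDH a, map_sub]
    have : ∑ b, F.S a b * F.H b f = ∑ b, F.Ric a b * F.H b f :=
      Finset.sum_congr rfl fun b _ => by rw [hRF a b]
    rw [this]; ring
  · intro hRF
    have hLap : F.Lap (F.D f - F.Lap f) = F.Lap (F.D f) - F.Lap (F.Lap f) := by
      unfold FB.Lap
      simp [Finset.sum_sub_distrib]
    unfold FB.Hop
    rw [hDL, hLap]
    have e1 : ∀ i j, F.S i j = F.Ric i j := hRF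
    have e2 : (∑ a, ∑ b, F.H a (F.S a b) * F.H b f) + ∑ c, (∑ a, F.Y a c a) * F.H c f = 0 := by
      rw [Finset.sum_comm, ← Finset.sum_add_distrib]
      refine Finset.sum_eq_zero fun c _ => ?_
      rw [← Finset.sum_mul, ← add_mul]
      have e3 : (∑ a, F.H a (F.S a c)) + ∑ a, F.Y a c a = 0 := by
        unfold FB.Y
        rw [Finset.sum_sub_distrib]
        simp only [e1]
        have := rdiv c
        rw [map_sum, two_smul] at this
        rw [← this]; ring
      rw [e3, zero_mul]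
    have e4 : ∑ a, ∑ b, F.S a b * F.H a (F.H b f) = ∑ a, ∑ b, F.Ric a b * F.H a (F.H b f) := by
      simp only [e1]
    rw [e4]
    linear_combination e2
  · intro hS
    refine ⟨fun a => ?_, ?_⟩
    · rw [hDH a]
      simp [hS]
    · rw [hDL]
      simp [hS, FB.Y]

end Pool.Agent.Helper47.RFn
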